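import Pool.Agent.MP_3ce0a0_al.H79.SpecN

/-
The subgraph of cells supported in a large set is connected.
-/

namespace Pool.Agent.MP_3ce0a0_al.H97

open Equiv Pool.Agent.MP_3ce0a0_al.H79

/-- an even permutation fixing `F` and moving `A` into `S`. -/
theorem exists_move {ι : Type} [Fintype ι] [DecidableEq ι] (F S : Finset ι) (hF : F ⊆ S)
    (A : Finset ι) (h : F.card + A.card + 2 ≤ S.card) :
    ∃ τ : Perm ι, Perm.sign τ = 1 ∧ (∀ x ∈ F, τ x = x) ∧ ∀ x ∈ A, τ x ∈ S := by
  induction A using Finset.induction_on with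
  | empty => exact ⟨1, by simp, fun _ _ => rfl, by simp⟩
  | insert a A ha ih =>
    rw [Finset.card_insert_of_notMem ha] at h
    obtain ⟨τ, h1, h2, h3⟩ := ih (by omega)
    by_cases hs : τ a ∈ S
    · exact ⟨τ, h1, h2, fun x hx => (Finset.mem_insert.1 hx).elim (fun e => e ▸ hs) (h3 x)⟩
    have c1 : (F ∪ A.map τ.toEmbedding).card ≤ F.card + A.card := by
      have := Finset.card_union_le F (A.map τ.toEmbedding)
      rwa [Finset.card_map] at this
    have c2 : 1 < (S \ (F ∪ A.map τ.toEmbedding)).card := by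
      have := Finset.le_card_sdiff (F ∪ A.map τ.toEmbedding) S
      omega
    obtain ⟨b, hb, c, hc, hbc⟩ := Finset.one_lt_card.1 c2
    rw [Finset.mem_sdiff] at hb hc
    have fx : ∀ y, y ∈ S → y ∈ F ∪ A.map τ.toEmbedding → (swap b c * swap (τ a) b) y = y := by
      intro y y1 y2
      have n1 : y ≠ τ a := fun e => hs (e ▸ y1)
      have n2 : y ≠ b := fun e => hb.2 (e ▸ y2)
      have n3 : y ≠ c := fun e => hc.2 (e ▸ y2)
      rw [Perm.mul_apply, swap_apply_of_ne_of_ne n1 n2, swap_apply_of_ne_of_ne n2 n3]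
    have nab : τ a ≠ b := fun e => hs (e ▸ hb.1)
    refine ⟨swap b c * swap (τ a) b * τ, ?_, fun x hx => ?_, fun x hx => ?_⟩
    · rw [Perm.sign_mul, Perm.sign_mul, Perm.sign_swap hbc, Perm.sign_swap nab, h1]
      simp
    · rw [Perm.mul_apply, h2 x hx]
      exact fx x (hF hx) (Finset.mem_union_left _ hx)
    · rw [Perm.mul_apply]
      rcases Finset.mem_insert.1 hx with e | hx
      · rw [e, Perm.mul_apply, swap_apply_left, swap_apply_left]
        exact hc.1
      · rw [fx _ (h3 x hx) (Finset.mem_union_right _ (Finset.mem_map_of_mem τ.toEmbedding hx))]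
        exact h3 x hx

/-- the support of the image under an equivariant map is smaller. -/
theorem supp_sub {ι V E : Type} [Fintype ι] [DecidableEq ι] (o : E → V) (PV : WS ι (Perm V))
    (PE : WS ι (Perm E)) (k : ℕ) (sV : V → Finset ι) (sE : E → Finset ι)
    (hn : 2 * k + 3 ≤ Fintype.card ι) (h1 : ∀ σ e, o (PE.π σ e) = PV.π σ (o e))
    (h2 : ∀ a e, o (PE.ε a e) = PV.ε a (o e)) (hV : Supp PV k sV) (hE : Supp PE k sE) (e : E) :
    sV (o e) ⊆ sE e := by
  have f := hE.2.1 e
  have c := hE.1 e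
  have f' : Fx PV (o e) (sE e)ᶜ :=
    ⟨fun σ s1 s2 => by rw [← h1, f.1 σ s1 s2], fun a ha b hb => by rw [← h2, ← h2, f.2 a ha b hb]⟩
  have d := hV.2.2.1 (o e) (sE e)ᶜ (by rw [Finset.card_compl]; omega) f'
  intro x hx
  by_contra hx'
  exact Finset.disjoint_left.1 d hx (Finset.mem_compl.2 hx')

theorem sconn : SConn := by
  intro ι V E _ _ o t PV PE k sV sE hn hG hV hE hL
  have so := supp_sub o PV PE k sV sE hn hG.1 hG.2.2.1 hV hE
  have st := supp_sub t PV PE k sV sE hn hG.2.1 hG.2.2.2 hV hE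
  refine ⟨fun e => ⟨so e, st e⟩, fun S hS u v hu hv => ?_⟩
  have fix : ∀ (w : V) (σ : Perm ι), Perm.sign σ = 1 → (∀ x ∈ sV w, σ x = x) → PV.π σ w = w :=
    fun w σ s1 s2 => (hV.2.1 w).1 σ s1 fun a ha => s2 a (by simpa using ha)
  have key : ∀ w, Lnk o t (fun _ => True) w v → ∀ σ : Perm ι, Perm.sign σ = 1 →
      (∀ x ∈ sV v, σ x = x) → (∀ x ∈ sV w, σ x ∈ S) →
      Lnk o t (fun e => sE e ⊆ S) (PV.π σ w) v := by
    intro w hw
    induction hw using Relation.ReflTransGen.head_induction_on with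
    | refl =>
      intro σ s1 s2 _
      rw [fix v σ s1 s2]
      exact Relation.ReflTransGen.refl
    | @head w w' hww _ ih =>
      intro σ s1 s2 s3
      obtain ⟨e, -, he⟩ := hww
      have hF : (sV w).map σ.toEmbedding ∪ sV v ⊆ S := by
        refine Finset.union_subset (fun x hx => ?_) hv
        obtain ⟨y, hy, rfl⟩ := Finset.mem_map.1 hx
        exact s3 y hy
      have c1 := Finset.card_union_le ((sV w).map σ.toEmbedding) (sV v)
      rw [Finset.card_map] at c1
      have c2 := hV.1 w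
      have c3 := hV.1 v
      have c4 := hE.1 e
      obtain ⟨τ, t1, t2, t3⟩ := exists_move _ S hF ((sE e).map σ.toEmbedding)
        (by rw [Finset.card_map (s := sE e)]; omega)
      have t4 : ∀ x ∈ sE e, (τ * σ) x ∈ S := fun x hx =>
        t3 _ (Finset.mem_map_of_mem σ.toEmbedding hx)
      have hw' : sV w' ⊆ sE e := by
        rcases he with ⟨-, rfl⟩ | ⟨rfl, -⟩
        · exact st e
        · exact so e
      have l := ih (τ * σ) (by rw [Perm.sign_mul, t1, s1, one_mul])
        (fun x hx => by rw [Perm.mul_apply, s2 x hx, t2 x (Finset.mem_union_right _ hx)])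
        (fun x hx => t4 x (hw' hx))
      have e1 : PV.π (τ * σ) w = PV.π σ w := by
        rw [map_mul, Perm.mul_apply]
        refine fix _ τ t1 fun x hx => t2 x (Finset.mem_union_left _ ?_)
        rwa [hV.2.2.2.1] at hx
      refine Relation.ReflTransGen.head ⟨PE.π (τ * σ) e, ?_, ?_⟩ l
      · intro x hx
        rw [hE.2.2.2.1] at hx
        obtain ⟨y, hy, rfl⟩ := Finset.mem_map.1 hx
        exact t4 y hy
      · rw [hG.1, hG.2.1, ← e1]
        rcases he with ⟨rfl, rfl⟩ | ⟨rfl, rfl⟩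
        · exact Or.inl ⟨rfl, rfl⟩
        · exact Or.inr ⟨rfl, rfl⟩
  have := key u (hL u v) 1 (by simp) (fun _ _ => rfl) (fun x hx => hu hx)
  rwa [map_one, Perm.one_apply] at this

end Pool.Agent.MP_3ce0a0_al.H97
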