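import Pool.Agent.MP_3ce0a0_al.H79.Y3B

/-
Passing to the block diagonal part of a triangular system.
-/

namespace Pool.Agent.MP_3ce0a0_al.H79.Y

open Equiv Module Pool.Agent.MP_3ce0a0_al.H79.X

namespace H97

section lift
variable {W : Type} [Group W] (N : NS (Fin 3) W) (Q : Subgroup W)

/-- a system with values in a subgroup. -/
def lift (hε : ∀ a, N.ε a ∈ Q) (hπ : ∀ p, N.π p ∈ Q) (r l : Fin 3 → Fin 3 → Q)
    (hr : ∀ a b, a ≠ b → (r a b : W) = N.ρ a b) (hl : ∀ a b, a ≠ b → (l a b : W) = N.lam a b) :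
    NS (Fin 3) Q where
  ε a := ⟨N.ε a, hε a⟩
  π := N.π.codRestrict Q hπ
  ε_sq a := Subtype.ext (N.ε_sq a)
  ε_comm a b := Subtype.ext (N.ε_comm a b)
  π_ε σ a := Subtype.ext (N.π_ε σ a)
  ρ := r
  lam := l
  π_ρ σ a b h := Subtype.ext (by
    rw [Subgroup.coe_mul, Subgroup.coe_mul, hr _ _ h, hr _ _ (σ.injective.ne h)]
    exact N.π_ρ σ a b h)
  π_lam σ a b h := Subtype.ext (by
    rw [Subgroup.coe_mul, Subgroup.coe_mul, hl _ _ h, hl _ _ (σ.injective.ne h)]
    exact N.π_lam σ a b h)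
  ε_right a b h := Subtype.ext (by
    simp only [Subgroup.coe_mul, Subgroup.coe_inv, hr _ _ h]
    exact N.ε_right a b h)
  ε_left a b h := Subtype.ext (by
    simp only [Subgroup.coe_mul, Subgroup.coe_inv, hr _ _ h, hl _ _ h]
    exact N.ε_left a b h)
  ε_other a b c h₁ h₂ h₃ := Subtype.ext (by
    simp only [Subgroup.coe_mul, hr _ _ h₁]
    exact (N.ε_other a b c h₁ h₂ h₃).eq)
  ρ_ρ a b c e h₁ h₂ h₃ h₄ h₅ := Subtype.ext (by
    simp only [Subgroup.coe_mul, hr _ _ h₁, hr _ _ h₂]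
    exact (N.ρ_ρ a b c e h₁ h₂ h₃ h₄ h₅).eq)
  ρ_lam a b c e h₁ h₂ h₃ h₄ := Subtype.ext (by
    simp only [Subgroup.coe_mul, hr _ _ h₁, hl _ _ h₂]
    exact (N.ρ_lam a b c e h₁ h₂ h₃ h₄).eq)
  lam_lam a b c e h₁ h₂ h₃ h₄ h₅ := Subtype.ext (by
    simp only [Subgroup.coe_mul, hl _ _ h₁, hl _ _ h₂]
    exact (N.lam_lam a b c e h₁ h₂ h₃ h₄ h₅).eq)
  conj_lam a b c h₁ h₂ h₃ := Subtype.ext (by
    simp only [Subgroup.coe_mul, Subgroup.coe_inv, hr _ _ h₁, hl _ _ h₂, hl _ _ h₃]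
    exact N.conj_lam a b c h₁ h₂ h₃)
  conj_ρ a b c h₁ h₂ h₃ := Subtype.ext (by
    simp only [Subgroup.coe_mul, Subgroup.coe_inv, hr _ _ h₁, hr _ _ h₂, hr _ _ h₃]
    exact N.conj_ρ a b c h₁ h₂ h₃)
  gersten a b h := Subtype.ext (by
    simp only [Subgroup.coe_mul, Subgroup.coe_inv, hr _ _ h, hr _ _ h.symm, hl _ _ h]
    exact N.gersten a b h)

end lift

variable {H : Type} [AddCommGroup H] [Module ℂ H]

/-- `X` keeps the fixed space of `E`. -/
def Kp (E X : End ℂ H) : Prop := ∀ v, E v = v → E (X v) = X v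

/-- the diagonal part. -/
noncomputable def dl (E X : End ℂ H) : End ℂ H := (1 / 2 : ℂ) • (X + E * X * E)

variable {E X Y : End ℂ H}

lemma Kp.mul (h : Kp E X) (k : Kp E Y) : Kp E (X * Y) := fun v hv => h _ (k v hv)

lemma Kp.one : Kp E 1 := fun _ hv => hv

lemma Kp.add (h : Kp E X) (k : Kp E Y) : Kp E (X + Y) := fun v hv => by
  simp [h v hv, k v hv]

lemma Kp.sub (h : Kp E X) (k : Kp E Y) : Kp E (X - Y) := fun v hv => by
  simp [h v hv, k v hv]

lemma Kp.of_comm (h : ∀ v, E (X v) = X (E v)) : Kp E X := fun v hv => by rw [h, hv]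

lemma dl_comm (hE : ∀ v, E (E v) = v) (h : ∀ v, E (X v) = X (E v)) : dl E X = X := by
  ext v
  simp only [dl, LinearMap.smul_apply, LinearMap.add_apply, End.mul_apply, h, hE]
  module

lemma dl_one (hE : ∀ v, E (E v) = v) : dl E 1 = 1 := dl_comm hE fun _ => rfl

lemma dl_add : dl E (X + Y) = dl E X + dl E Y := by
  simp only [dl, mul_add, add_mul]
  module

lemma dl_sub : dl E (X - Y) = dl E X - dl E Y := by
  simp only [dl, mul_sub, sub_mul]
  module

lemma dl_conj (hE : ∀ v, E (E v) = v) : dl E (E * X * E) = dl E X := by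
  ext v
  simp only [dl, LinearMap.smul_apply, LinearMap.add_apply, End.mul_apply, hE]
  module

lemma dl_mul (hE : ∀ v, E (E v) = v) (h : Kp E X) (k : Kp E Y) :
    dl E (X * Y) = dl E X * dl E Y := by
  have q : ∀ v, E (v + E v) = v + E v := fun v => by rw [map_add, hE, add_comm]
  ext v
  have h1 := congrArg X (k _ (q v))
  have h2 := h _ (q (Y v))
  have h3 := h.mul k _ (q v)
  simp only [dl, LinearMap.smul_apply, LinearMap.add_apply, End.mul_apply, map_add, map_smul,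
    hE] at h1 h2 h3 ⊢
  linear_combination (norm := module) (1 / 4 : ℂ) • h3 - (1 / 4 : ℂ) • h1 - (1 / 4 : ℂ) • h2

lemma trace_dl [FiniteDimensional ℂ H] (hE : ∀ v, E (E v) = v) :
    LinearMap.trace ℂ H (dl E X) = LinearMap.trace ℂ H X := by
  have : E * E = 1 := LinearMap.ext hE
  rw [dl, map_smul, map_add, LinearMap.trace_mul_comm, ← mul_assoc, this, one_mul, smul_eq_mul]
  ring

/-- the stabiliser of the fixed space. -/
def QQ (E : End ℂ H) : Subgroup (GH H) where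
  carrier := {g | Kp E g.toLinearMap ∧ Kp E (g⁻¹).toLinearMap}
  one_mem' := ⟨Kp.one, Kp.one⟩
  mul_mem' := fun {_ _} h k => ⟨h.1.mul k.1, by rw [mul_inv_rev]; exact k.2.mul h.2⟩
  inv_mem' := fun {_} h => ⟨h.2, by rw [inv_inv]; exact h.1⟩

lemma mem_comm {g : GH H} (h : ∀ v, E (g v) = g (E v)) : g ∈ QQ E :=
  ⟨Kp.of_comm h, Kp.of_comm fun v => g.injective (by
    change g (E (g⁻¹ v)) = g (g⁻¹ (E v))
    rw [← h, ginv, ginv])⟩

/-- the diagonal part as a representation. -/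
noncomputable def dd (hE : ∀ v, E (E v) = v) : QQ E →* End ℂ H where
  toFun g := dl E (g : GH H).toLinearMap
  map_one' := dl_one hE
  map_mul' x y := dl_mul hE x.2.1 y.2.1

lemma key [FiniteDimensional ℂ H] (N : NS (Fin 3) (GH H)) (s : ℂ) (hs : s * s = 1)
    (hT : ∀ a b, a ≠ b → Kp (s • (DD N.toWS).toLinearMap) (N.ρ a b).toLinearMap) :
    ∃ N' : NS (Fin 3) (GH H), N'.toWS = N.toWS ∧ Cen N' ∧
      LinearMap.trace ℂ H (TT N') = LinearMap.trace ℂ H (TT N) := by
  obtain ⟨E, hE0⟩ : ∃ E, E = s • (DD N.toWS).toLinearMap := ⟨_, rfl⟩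
  rw [← hE0] at hT
  have hD : ∀ v, DD N.toWS (DD N.toWS v) = v := fun v => gap (DD_sq N.toWS) v
  have hE : ∀ v, E (E v) = v := fun v => by simp [hE0, hD, smul_smul, hs]
  have hc : ∀ g : GH H, Commute g (DD N.toWS) → ∀ v, E (g v) = g (E v) := fun g h v => by
    have := gap h.eq v
    rw [gmul, gmul] at this
    simp [hE0, this]
  have hε : ∀ a, N.ε a ∈ QQ E := fun a => mem_comm (hc _ (ε_DD N.toWS a))
  have hπ : ∀ p, N.π p ∈ QQ E := fun p => mem_comm (hc _ (π_DD N.toWS p))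
  have hDD : DD N.toWS ∈ QQ E := mem_comm (hc _ (Commute.refl _))
  have hρ : ∀ a b, a ≠ b → N.ρ a b ∈ QQ E := fun a b h =>
    ⟨hT a b h, by rw [ρ_inv N h]; exact ((hε b).1.mul (hT a b h)).mul (hε b).1⟩
  have hl : ∀ a b, a ≠ b → N.lam a b ∈ QQ E := fun a b h => by
    rw [lam_eq N h]
    exact mul_mem (mul_mem hDD (hρ a b h)) hDD
  let r : Fin 3 → Fin 3 → QQ E := fun a b => if h : a = b then 1 else ⟨_, hρ a b h⟩
  let l : Fin 3 → Fin 3 → QQ E := fun a b => if h : a = b then 1 else ⟨_, hl a b h⟩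
  have er : ∀ a b, a ≠ b → (r a b : GH H) = N.ρ a b := fun a b h => by simp [r, h]
  have el : ∀ a b, a ≠ b → (l a b : GH H) = N.lam a b := fun a b h => by simp [l, h]
  let M := lift N (QQ E) hε hπ r l er el
  have fx : ∀ g : QQ E, Commute (g : GH H) (DD N.toWS) → toG (dd hE) g = g := fun g h =>
    LinearEquiv.toLinearMap_injective (dl_comm hE (hc _ h))
  refine ⟨M.map (toG (dd hE)), ?_, fun a b h => ?_, ?_⟩
  · have e1 : (M.map (toG (dd hE))).toWS.ε = N.toWS.ε := funext fun a => fx _ (ε_DD N.toWS a)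
    have e2 : (M.map (toG (dd hE))).toWS.π = N.toWS.π :=
      MonoidHom.ext fun p => fx _ (π_DD N.toWS p)
    revert e1 e2
    generalize (M.map (toG (dd hE))).toWS = A
    generalize N.toWS = B
    cases A
    cases B
    rintro rfl rfl
    rfl
  · refine LinearEquiv.toLinearMap_injective ?_
    change dl E (l a b : GH H).toLinearMap = dl E (r a b : GH H).toLinearMap
    rw [er a b h, el a b h, ← dl_conj (X := (N.ρ a b).toLinearMap) hE, lam_eq N h]
    congr 1
    ext v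
    simp [hE0, gmul, smul_smul, hs]
  · have ct : ((tp M.toWS 0 1 : QQ E) : GH H) = tp N.toWS 0 1 := rfl
    have cv : ∀ a b c, D3 a b c → ((vv M a b c : QQ E) : GH H) = vv N a b c := fun a b c d => by
      simp only [vv, Subgroup.coe_mul]
      rw [← er a c d.2.1.symm, ← er b c d.2.2.symm]
      rfl
    have mt : tp (M.map (toG (dd hE))).toWS 0 1 = toG (dd hE) (tp M.toWS 0 1) := by
      simp only [tp, DD, map_mul]
      rfl
    have mv : ∀ a b c, vv (M.map (toG (dd hE))) a b c = toG (dd hE) (vv M a b c) :=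
      fun a b c => by
        simp only [vv, map_mul]
        rfl
    have d1 : D3 1 2 0 := by unfold D3; decide
    have d2 : D3 0 2 1 := by unfold D3; decide
    have k0 := (tp M.toWS 0 1).2.1
    have k1 := (vv M 1 2 0).2.1
    have k2 := (vv M 0 2 1).2.1
    rw [← trace_dl (X := TT N) hE, TT, TT, mt, mv, mv, ← ct, ← cv _ _ _ d1, ← cv _ _ _ d2,
      dl_mul hE ((Kp.one.sub k0).mul (Kp.one.add k1)) (Kp.one.add k2),
      dl_mul hE (Kp.one.sub k0) (Kp.one.add k1), dl_sub, dl_add, dl_add, dl_one hE]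
    rfl

end H97

theorem sdg : SDg := by
  intro H _ _ _ N hT
  rcases hT with h | h
  · refine H97.key N (-1) (by norm_num) fun a b hab v hv => ?_
    have h1 : DD N.toWS v = -v := by
      rw [← neg_eq_iff_eq_neg]
      simpa using hv
    simp [h a b hab v h1]
  · refine H97.key N 1 (by norm_num) fun a b hab v hv => ?_
    have h1 : DD N.toWS v = v := by simpa using hv
    simp [h a b hab v h1]

end Pool.Agent.MP_3ce0a0_al.H79.Y
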